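import Pool.Agent.Lib.H8V.Fun5R
import Pool.Agent.Lib.H24A.B
import Pool.Agent.Lib.H40B5.C
import Pool.Agent.Lib.H77D5.C2
import Pool.Agent.Lib.H33DC.D
import Pool.Agent.Lib.H57G5.E

/-!
# H8V, file CF: all facts on cycles, form D4R with cycles of length at least five, complete
-/

set_option autoImplicit false

namespace H8V

open Finset LD

/-- The facts on cycles (helpers 24, 40, 77, 33, 57). -/
theorem facts (V : Type) [Fintype V] [DecidableEq V] : H47G5.CycFacts V where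
  pair _ _ _ _ hT ha hb := H24A.oneCyc_two hT ha hb
  base _ _ _ hT hno h5 h := H40B5.oneCyc_cov5 hT hno h5 h
  red _ _ _ _ _ _ _ hT hs h := H77D5.cv_red hT hs h
  four _ _ hT h4 := H33DC.small_ham hT h4
  cyc _ _ hT h2 := H57G5.oneCyc_of_deg2 hT h2

/-- FORM D4R with cycles of length at least five for simple drawings. -/
theorem fiveR : ∀ n : ℕ, 5 ≤ n → ∀ (D : SimpleDraw.SimpleDrawing n) (R : SimpleGraph (Fin n)),
    ∃ G H F : SimpleGraph (Fin n), D.Plane G ∧ H ≤ G ∧ F ≤ H ⊔ R ∧ H.Connected ∧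
      (∀ v, (H.induce {w | w ≠ v}).Connected) ∧ H.edgeSet.ncard = 2 * n - 3 ∧
      (∀ v, (F.neighborSet v).ncard = 2) ∧
      (∀ (v : Fin n) (c : F.Walk v v), c.IsCycle → 5 ≤ c.length) ∧
      ((R ≤ F ∧ ∃ (v : Fin n) (c : F.Walk v v), c.IsHamiltonianCycle) ∨
        ∀ u v, ((G ⊔ R).induce {w | w ≠ u ∧ w ≠ v}).Connected) :=
  mainR fun n => facts (Fin n)

/-- Form D4 with cycles of length at least five for simple drawings. -/
theorem five : ∀ n : ℕ, 3 ≤ n → ∀ D : SimpleDraw.SimpleDrawing n,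
    ∃ G H F : SimpleGraph (Fin n), D.Plane G ∧
    F ≤ H ∧ H ≤ G ∧ H.Connected ∧ (∀ v : Fin n, (H.induce {w | w ≠ v}).Connected) ∧
    H.edgeSet.ncard = 2 * n - 3 ∧ (∀ v : Fin n, (F.neighborSet v).ncard = 2) ∧
    ((∃ (v : Fin n) (c : F.Walk v v), c.IsHamiltonianCycle) ∨
      (∀ (v : Fin n) (c : F.Walk v v), c.IsCycle → 5 ≤ c.length) ∧
      ∀ u v : Fin n, (G.induce {w | w ≠ u ∧ w ≠ v}).Connected) :=
  H47G5.main5 fun n => facts (Fin n)

end H8V
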