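import Pool.Agent.Lib.H36V.D7
import Pool.Agent.Lib.H8F.F5

/-!
# H8V, file Five: the drawing levels of the forms D4R and D7 with cycles of length at least five
-/

set_option autoImplicit false

open H53P SimpleDraw

namespace H8V

open Finset H98P H98Z H98M H63F H30F H63L H97W H85TF H98TF H36V

section

variable {V : Type*} [Fintype V] [DecidableEq V]

/-- The vertices of a 4-cycle of a graph of maximum degree two are closed. -/
theorem four_closed {F : Finset (Sym2 V)} (hE : ∀ e ∈ F, ¬ e.IsDiag)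
    (hdg : ∀ v, dg F v = 0 ∨ dg F v = 2) {x y z w : V} (hxz : x ≠ z) (hyw : y ≠ w) (h1 : s(x, y) ∈ F)
    (h2 : s(y, z) ∈ F) (h3 : s(z, w) ∈ F) (h4 : s(w, x) ∈ F) :
    ∀ a ∈ ({x, y, z, w} : Finset V), ∀ b, s(a, b) ∈ F → b ∈ ({x, y, z, w} : Finset V) := by
  have h1' : s(y, x) ∈ F := by rw [Sym2.eq_swap]; exact h1
  have h2' : s(z, y) ∈ F := by rw [Sym2.eq_swap]; exact h2
  have h3' : s(w, z) ∈ F := by rw [Sym2.eq_swap]; exact h3
  have h4' : s(x, w) ∈ F := by rw [Sym2.eq_swap]; exact h4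
  intro a ha b hab
  simp only [mem_insert, mem_singleton] at ha ⊢
  rcases ha with rfl | rfl | rfl | rfl
  · rcases H36R.tri_closed_one hE hdg h1 h4' hyw hab with h | h
    · exact Or.inr (Or.inl h)
    · exact Or.inr (Or.inr (Or.inr h))
  · rcases H36R.tri_closed_one hE hdg h1' h2 hxz hab with h | h
    · exact Or.inl h
    · exact Or.inr (Or.inr (Or.inl h))
  · rcases H36R.tri_closed_one hE hdg h2' h3 hyw hab with h | h
    · exact Or.inr (Or.inl h)
    · exact Or.inr (Or.inr (Or.inr h))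
  · rcases H36R.tri_closed_one hE hdg h3' h4 hxz.symm hab with h | h
    · exact Or.inr (Or.inr (Or.inl h))
    · exact Or.inl h

/-- A Hamiltonian cycle on at least five vertices has no 4-cycle. -/
theorem nq_of_ham (h5 : 5 ≤ Fintype.card V) {F : Finset (Sym2 V)} (hF : ∀ e ∈ F, ¬ e.IsDiag)
    (hc : ¬ Disc univ F) (h2 : ∀ v, dg F v = 2) :
    ∀ x y z w : V, x ≠ z → y ≠ w → s(x, y) ∈ F → s(y, z) ∈ F → s(z, w) ∈ F → s(w, x) ∉ F := by
  intro x y z w hxz hyw e1 e2 e3 e4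
  have hcl := four_closed hF (fun v => Or.inr (h2 v)) hxz hyw e1 e2 e3 e4
  refine hc ⟨{x, y, z, w}, univ \ {x, y, z, w}, ⟨x, by simp⟩, ?_, disjoint_sdiff, by simp, ?_⟩
  · rw [← card_pos, card_sdiff_of_subset (subset_univ _), card_univ]
    have := card_le_four (a := x) (b := y) (c := z) (d := w)
    omega
  · intro a ha b hb hab
    exact (mem_sdiff.1 hb).2 (hcl a ha b hab)

end

theorem five_le_gr {n : ℕ} {F : Finset (Sym2 (Fin n))} (h3 : H75U.NT F)
    (h4 : ∀ x y z w : Fin n, x ≠ z → y ≠ w → s(x, y) ∈ F → s(y, z) ∈ F → s(z, w) ∈ F → s(w, x) ∉ F)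
    {v : Fin n} (c : (gr F).Walk v v) (hc : c.IsCycle) : 5 ≤ c.length := by
  have hm : ∀ {x y : Fin n}, (gr F).Adj x y → s(x, y) ∈ F := by
    intro x y h
    rw [SimpleGraph.fromEdgeSet_adj] at h
    exact_mod_cast h.1
  exact five_le (fun x y z a b d => h3 x y z (hm a) (hm b) (hm d))
    (fun x y z w hxz hyw a b d e => h4 x y z w hxz hyw (hm a) (hm b) (hm d) (hm e)) c hc

/-- FORM D7 with cycles of length at least five for simple drawings, from the abstract form. -/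
theorem draw_D7five {n : ℕ} (hn : 5 ≤ n) (D : SimpleDrawing n) (R : SimpleGraph (Fin n))
    {G : Finset (Sym2 (Fin n))} (hGL : G ⊆ LW univ) (hGP : Plane (crossT (H53P.table D)) G) (hT : TC G)
    (hm : 2 * Fintype.card (Fin n) ≤ G.card + 3)
    (h : (∃ F ⊆ G, es R ⊆ F ∧ ¬ Disc univ F ∧ ∀ v, dg F v = 2) ∨
      (NoCut2 (G ∪ es R) ∧ H8F.Cov5 G univ)) :
    ∃ G H F : SimpleGraph (Fin n), D.Plane G ∧ H ≤ G ∧ F ≤ H ∧ H.Connected ∧
      (∀ v, (H.induce {w | w ≠ v}).Connected) ∧ H.edgeSet.ncard = 2 * n - 3 ∧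
      (∀ v, (F.neighborSet v).ncard = 2) ∧
      (∀ (v : Fin n) (c : F.Walk v v), c.IsCycle → 5 ≤ c.length) ∧
      ((R ≤ F ∧ ∃ (v : Fin n) (c : F.Walk v v), c.IsHamiltonianCycle) ∨
        ∀ u v, ((G ⊔ R).induce {w | w ≠ u ∧ w ≠ v}).Connected) := by
  have hd := not_diag_of_LW hGL
  rcases h with ⟨F, hF, hRF, hc, h2⟩ | ⟨hN, F, hF, -, hnt, hnq, h2⟩
  · have hdF : ∀ e ∈ F, ¬ e.IsDiag := fun e he => hd e (hF he)
    obtain ⟨H, g1, g2, g3, g4, g5, g6⟩ := layer2 (by omega) D hGL hGP hT hF (fun v => (h2 v).le) hm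
    refine ⟨gr G, H, gr F, g1, g2, g6, g3, g4, g5, fun v => (degree_gr hdF v).trans (h2 v),
      fun v c hcyc => five_le_gr (nt_of_ham (by rw [Fintype.card_fin]; omega) hdF hc h2)
        (nq_of_ham (by rw [Fintype.card_fin]; exact hn) hdF hc h2) c hcyc,
      Or.inl ⟨?_, ⟨0, by omega⟩, ham_gr (by omega) hdF hc h2 _⟩⟩
    rw [← gr_es R]
    exact gr_mono hRF
  · have hdF : ∀ e ∈ F, ¬ e.IsDiag := fun e he => hd e (hF he)
    obtain ⟨H, g1, g2, g3, g4, g5, g6⟩ := layer2 (by omega) D hGL hGP hT hF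
      (fun v => (h2 v (mem_univ v)).le) hm
    refine ⟨gr G, H, gr F, g1, g2, g6, g3, g4, g5, fun v => (degree_gr hdF v).trans (h2 v (mem_univ v)),
      fun v c hcyc => five_le_gr hnt hnq c hcyc, Or.inr ?_⟩
    have h8 := conn3 (G := G ∪ es R) (by omega) (tc_mono subset_union_left hT) hN
    rw [gr_union, gr_es] at h8
    exact h8

/-- FORM D4R with cycles of length at least five for simple drawings, from the abstract form. -/
theorem draw_D4Rfive {n : ℕ} (hn : 5 ≤ n) (D : SimpleDrawing n) (R : SimpleGraph (Fin n))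
    {G : Finset (Sym2 (Fin n))} (hGL : G ⊆ LW univ) (hGP : Plane (crossT (H53P.table D)) G) (hT : TC G)
    (hm : 2 * Fintype.card (Fin n) ≤ G.card + 3)
    (h : (∃ G0 ⊆ G, ¬ Disc univ (G0 ∪ es R) ∧ ∀ v, dg (G0 ∪ es R) v = 2) ∨
      (NoCut2 (G ∪ es R) ∧ H8F.Cov5 (G ∪ es R) univ)) :
    ∃ G H F : SimpleGraph (Fin n), D.Plane G ∧ H ≤ G ∧ F ≤ H ⊔ R ∧ H.Connected ∧
      (∀ v, (H.induce {w | w ≠ v}).Connected) ∧ H.edgeSet.ncard = 2 * n - 3 ∧
      (∀ v, (F.neighborSet v).ncard = 2) ∧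
      (∀ (v : Fin n) (c : F.Walk v v), c.IsCycle → 5 ≤ c.length) ∧
      ((R ≤ F ∧ ∃ (v : Fin n) (c : F.Walk v v), c.IsHamiltonianCycle) ∨
        ∀ u v, ((G ⊔ R).induce {w | w ≠ u ∧ w ≠ v}).Connected) := by
  have hd := not_diag_of_LW hGL
  have hdR := not_diag_of_LW (es_sub R)
  have hdU : ∀ e ∈ G ∪ es R, ¬ e.IsDiag := fun e he => (mem_union.1 he).elim (hd e) (hdR e)
  have key : ∀ F ⊆ G ∪ es R, (∀ v, dg F v = 2) → ∃ H : SimpleGraph (Fin n), D.Plane (gr G) ∧ H ≤ gr G ∧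
      gr F ≤ H ⊔ R ∧ H.Connected ∧ (∀ v, (H.induce {w | w ≠ v}).Connected) ∧
      H.edgeSet.ncard = 2 * n - 3 := by
    intro F hF h2
    obtain ⟨H, g1, g2, g3, g4, g5, g6⟩ := layer2 (by omega) D hGL hGP hT (inter_subset_right : F ∩ G ⊆ G)
      (fun v => by
        rw [← h2 v]
        unfold dg
        exact card_le_card (filter_subset_filter _ inter_subset_left)) hm
    refine ⟨H, g1, g2, ?_, g3, g4, g5⟩
    have h7 : F ⊆ (F ∩ G) ∪ es R := by
      intro e he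
      rcases mem_union.1 (hF he) with h8 | h8
      · exact mem_union_left _ (mem_inter.2 ⟨he, h8⟩)
      · exact mem_union_right _ h8
    calc gr F ≤ gr ((F ∩ G) ∪ es R) := gr_mono h7
      _ = gr (F ∩ G) ⊔ R := by rw [gr_union, gr_es]
      _ ≤ H ⊔ R := sup_le_sup_right g6 R
  rcases h with ⟨G0, hG0, hc, h2⟩ | ⟨hN, F, hF, -, hnt, hnq, h2⟩
  · have hF : G0 ∪ es R ⊆ G ∪ es R := union_subset_union_left hG0
    have hdF : ∀ e ∈ G0 ∪ es R, ¬ e.IsDiag := fun e he => hdU e (hF he)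
    obtain ⟨H, g1, g2, g3, g4, g5, g6⟩ := key _ hF h2
    refine ⟨gr G, H, gr (G0 ∪ es R), g1, g2, g3, g4, g5, g6, fun v => (degree_gr hdF v).trans (h2 v),
      fun v c hcyc => five_le_gr (nt_of_ham (by rw [Fintype.card_fin]; omega) hdF hc h2)
        (nq_of_ham (by rw [Fintype.card_fin]; exact hn) hdF hc h2) c hcyc,
      Or.inl ⟨?_, ⟨0, by omega⟩, ham_gr (by omega) hdF hc h2 _⟩⟩
    rw [gr_union, gr_es]
    exact le_sup_right
  · have hdF : ∀ e ∈ F, ¬ e.IsDiag := fun e he => hdU e (hF he)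
    obtain ⟨H, g1, g2, g3, g4, g5, g6⟩ := key F hF fun v => h2 v (mem_univ v)
    refine ⟨gr G, H, gr F, g1, g2, g3, g4, g5, g6, fun v => (degree_gr hdF v).trans (h2 v (mem_univ v)),
      fun v c hcyc => five_le_gr hnt hnq c hcyc, Or.inr ?_⟩
    have h8 := conn3 (G := G ∪ es R) (by omega) (tc_mono subset_union_left hT) hN
    rw [gr_union, gr_es] at h8
    exact h8

end H8V
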