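import Pool.Agent.Lib.H47G5.Abs
import Pool.Agent.Lib.H8V.Five

/-!
# H8V, file Fun5R: the functor step of form D4 relative to a graph `R`, with cycles of length at least five
-/

set_option autoImplicit false
set_option linter.unusedSectionVars false

open H53P SimpleDraw

namespace H8V

open Finset H98P H98Z H98M H63F H30F H85TF LD H77D4 H98TF H47G5

/-- THE FUNCTOR STEP OF FORM D4R with cycles of length at least five, from the facts on cycles. -/
theorem formD5R {V : Type} [Fintype V] [DecidableEq V] (cf : CycFacts V) {cross : Sym2 V → Sym2 V → Prop}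
    (hsymm : ∀ e f, cross e f → cross f e) (hHD : ∀ W, HD cross W) (h5 : 5 ≤ Fintype.card V)
    {R : Finset (Sym2 V)} (hR : R ⊆ LW univ) :
    ∃ G : Finset (Sym2 V), G ⊆ LW univ ∧ Plane cross G ∧ TC G ∧ 2 * Fintype.card V ≤ G.card + 3 ∧
      ((∃ G0 ⊆ G, ¬ Disc univ (G0 ∪ R) ∧ ∀ v, dg (G0 ∪ R) v = 2) ∨
        (NoCut2 (G ∪ R) ∧ H8F.Cov5 (G ∪ R) univ)) := by
  have hV : ∃ x y : V, x ≠ y := by
    obtain ⟨x, y, h⟩ := Fintype.exists_pair_of_one_lt_card (α := V) (by omega)
    exact ⟨x, y, h⟩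
  obtain ⟨G, hGL, hGp, ⟨hT, hN⟩, hcard⟩ := exactX hsymm hHD hV
    (fun G W => Disc W G ∧ (TC G → UC Cv (G ∪ R) univ W ∨ X2 (G ∪ R) univ W))
    (fun G => TC G ∧ ((∃ G0 ⊆ G, ¬ Disc univ (G0 ∪ R) ∧ ∀ v, dg (G0 ∪ R) v = 2) ∨
      (NoCut2 (G ∪ R) ∧ H8F.Cov5 (G ∪ R) univ)))
    (fun G G' hGG _ W hW => ⟨H85TF.disc_anti hGG hW.1, fun hT =>
      (hW.2 (tc_mono hGG hT)).imp (fun h => h.anti cv_mono (union_subset_union_left hGG))
        (fun h => h.anti (union_subset_union_left hGG))⟩)
    (fun G W _ h => h.1)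
    (fun G G' hGG _ h => ⟨tc_mono hGG h.1, h.2.imp (fun ⟨G0, h1, h2⟩ => ⟨G0, h1.trans hGG, h2⟩)
      (fun h => ⟨noCut2_mono (union_subset_union_left hGG) h.1,
        H8F.cov5_edges (union_subset_union_left hGG) h.2⟩)⟩)
    (fun G hGL hno => by
      have hEL : G ∪ R ⊆ LW univ := union_subset hGL hR
      by_cases hT : TC G
      · have hTE : TC (G ∪ R) := tc_mono subset_union_left hT
        have hY := tcy_of_tc (by omega) hEL hTE
        have hdx : ∀ {W : Finset V}, X2 (G ∪ R) univ W → Disc W G := fun h =>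
          H85TF.disc_anti subset_union_left (disc_of_x2 h)
        by_cases hU : UC Cv (G ∪ R) univ univ
        · refine ac_congr (fun t => ?_) (H30D.remove_univ
            (P := fun W => UC Cv (G ∪ R) univ W ∨ X2 (G ∪ R) univ W) (G := G) (fun M hM hMc => ?_) (Or.inl hU))
          · constructor
            · exact ch_mono fun W hW => ⟨hW.2, fun _ => hW.1⟩
            · exact ch_mono fun W hW => ⟨hW.2 hT, hW.1⟩
          · exact L2_5 cf (G ∪ R) hEL hY M (fun h => hMc (H85TF.disc_anti subset_union_left h))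
              (hM.resolve_right fun h => hMc (hdx h))
        · have hU' : ∀ W, ¬ UC Cv (G ∪ R) univ W := fun W h => hU (h.up cv_dn (subset_univ W))
          have hcov : Cv (G ∪ R) univ := by
            by_contra h
            refine hU (UC.base ?_)
            rw [univ_inter]
            exact h
          have hno' : ¬ ((∃ G0 ⊆ G, ¬ Disc univ (G0 ∪ R) ∧ ∀ v, dg (G0 ∪ R) v = 2) ∨
              (NoCut2 (G ∪ R) ∧ H8F.Cov5 (G ∪ R) univ)) := fun h => hno ⟨hT, h⟩
          rw [not_or, not_and] at hno'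
          have hsep : ∃ x y P Q, Sep (G ∪ R) univ x y P Q := by
            by_contra hcon
            push Not at hcon
            exact hno'.2 (noCut2_of_noSep hcon) (hcov.elim id
              (cf.base (G ∪ R) univ univ hY hcon (by rw [card_univ]; exact h5)))
          have hdeg : ¬ ∀ v, dg (G ∪ R) v = 2 := fun h => hno'.1 ⟨G, Subset.rfl, hTE.1, h⟩
          refine ac_congr (fun t => ?_) (H36R.L1_4 (G ∪ R) hEL hY hsep hdeg)
          constructor
          · exact ch_mono fun W hW => ⟨hdx hW, fun _ => Or.inr hW⟩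
          · exact ch_mono fun W hW => (hW.2 hT).resolve_left (hU' W)
      · refine ac_congr (fun t => ?_) (H30D.ac_disc G (by
          by_contra hcon
          rw [not_or, not_exists] at hcon
          exact hT hcon))
        constructor
        · exact ch_mono fun W hW => ⟨hW, fun h => absurd h hT⟩
        · exact ch_mono fun W hW => hW.1)
  exact ⟨G, hGL, hGp, hT, hcard, hN⟩

/-- FORM D4R with cycles of length at least five for simple drawings, from the facts on cycles. -/
theorem mainR (cf : ∀ n : ℕ, CycFacts (Fin n)) : ∀ n : ℕ, 5 ≤ n → ∀ (D : SimpleDrawing n)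
    (R : SimpleGraph (Fin n)), ∃ G H F : SimpleGraph (Fin n), D.Plane G ∧ H ≤ G ∧ F ≤ H ⊔ R ∧ H.Connected ∧
      (∀ v, (H.induce {w | w ≠ v}).Connected) ∧ H.edgeSet.ncard = 2 * n - 3 ∧
      (∀ v, (F.neighborSet v).ncard = 2) ∧
      (∀ (v : Fin n) (c : F.Walk v v), c.IsCycle → 5 ≤ c.length) ∧
      ((R ≤ F ∧ ∃ (v : Fin n) (c : F.Walk v v), c.IsHamiltonianCycle) ∨
        ∀ u v, ((G ⊔ R).induce {w | w ≠ u ∧ w ≠ v}).Connected) := by
  intro n hn D R
  obtain ⟨G, hGL, hGP, hT, hm, h⟩ := formD5R (cf n) (H53P.crossT_symm (H53P.table D))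
    (H98W.hd_table (H53P.table D)) (by rw [Fintype.card_fin]; exact hn) (H36V.es_sub R)
  exact draw_D4Rfive hn D R hGL hGP hT hm h

end H8V
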